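import Pool.Agent.Helper77.OF4.St

/-! # Project OF4, module P2: cutting off a cycle of length two -/

set_option autoImplicit false

namespace Pool.Agent.Helper60.OF4.P2

open Equiv Equiv.Perm Pool.Agent.Helper35.PM Pool.Agent.Helper77.HY Pool.Agent.Helper77.OF4

theorem mp_eq {D : Type} [Finite D] (f : Perm D) (d : D) :
    Function.minimalPeriod f d = ({e | f.SameCycle d e} : Set D).ncard := by
  classical
  have : Fintype D := Fintype.ofFinite D
  have h1 : Function.minimalPeriod (f • ·) d
      = Nat.card (MulAction.orbit (Subgroup.zpowers f) d) := by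
    have : Fintype (MulAction.orbit (Subgroup.zpowers f) d) := Fintype.ofFinite _
    rw [MulAction.minimalPeriod_eq_card, Nat.card_eq_fintype_card]
  have h2 : (MulAction.orbit (Subgroup.zpowers f) d) = {e | f.SameCycle d e} := by
    ext e
    constructor
    · rintro ⟨⟨g, hg⟩, rfl⟩
      obtain ⟨k, rfl⟩ := Subgroup.mem_zpowers_iff.1 hg
      exact ⟨k, rfl⟩
    · rintro ⟨k, hk⟩
      exact ⟨⟨f ^ k, Subgroup.mem_zpowers_iff.2 ⟨k, rfl⟩⟩, hk⟩
  rw [h2, Nat.card_coe_set_eq] at h1
  exact h1

theorem main : StP2 := by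
  intro D _ _ φ d h1 h2 ψ
  have hd1 : d ≠ φ.symm d := fun h => h1 (by
    have := congrArg φ h
    rwa [φ.apply_symm_apply] at this)
  have hψd : ψ d = φ d := by
    change φ (swap (φ.symm d) (φ d) d) = φ d
    rw [swap_apply_of_ne_of_ne hd1 h1.symm]
  have hψφ : ψ (φ d) = d := by
    change φ (swap (φ.symm d) (φ d) (φ d)) = d
    rw [swap_apply_right, φ.apply_symm_apply]
  have hψs : ψ (φ.symm d) = φ (φ d) := by
    change φ (swap (φ.symm d) (φ d) (φ.symm d)) = φ (φ d)
    rw [swap_apply_left]
  have hψo : ∀ e, e ≠ φ.symm d → e ≠ φ d → ψ e = φ e := by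
    intro e he1 he2
    change φ (swap (φ.symm d) (φ d) e) = φ e
    rw [swap_apply_of_ne_of_ne he1 he2]
  have h3 : φ (φ d) ≠ φ d := fun h => h1 (φ.injective h)
  -- powers
  have key : ∀ n : ℕ, ∀ e, e ≠ d → e ≠ φ d → (φ ^ n) e ≠ d → (φ ^ n) e ≠ φ d →
      ψ.SameCycle e ((φ ^ n) e) := by
    intro n
    induction n using Nat.strong_induction_on with
    | _ n ih =>
      intro e he1 he2 hn1 hn2
      by_cases hn0 : n = 0
      · subst hn0
        exact SameCycle.refl _ _
      by_cases hes : e = φ.symm d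
      · have e1 : (φ ^ 1) e = d := by rw [pow_one, hes, φ.apply_symm_apply]
        have e2 : (φ ^ 2) e = φ d := by
          rw [pow_succ', Perm.mul_apply, e1]
        have hn3 : 3 ≤ n := by
          by_contra hlt
          have : n = 1 ∨ n = 2 := by omega
          rcases this with h | h
          · subst h
            exact hn1 e1
          · subst h
            exact hn2 e2
        obtain ⟨m, rfl⟩ : ∃ m, n = m + 3 := ⟨n - 3, by omega⟩
        have e3 : (φ ^ (m + 3)) e = (φ ^ m) (φ (φ d)) := by
          rw [pow_add, Perm.mul_apply, pow_succ', Perm.mul_apply, e2]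
        rw [e3] at hn1 hn2 ⊢
        have h4 := ih m (by omega) (φ (φ d)) h2 h3 hn1 hn2
        have h5 : ψ e = φ (φ d) := by rw [hes, hψs]
        rw [← h5] at h4 ⊢
        exact sameCycle_apply_left.1 h4
      · obtain ⟨m, rfl⟩ : ∃ m, n = m + 1 := ⟨n - 1, by omega⟩
        have e3 : (φ ^ (m + 1)) e = (φ ^ m) (φ e) := by
          rw [pow_succ, Perm.mul_apply]
        rw [e3] at hn1 hn2 ⊢
        have g1 : φ e ≠ d := fun h => hes (by rw [← h, φ.symm_apply_apply])
        have g2 : φ e ≠ φ d := fun h => he1 (φ.injective h)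
        have h4 := ih m (by omega) (φ e) g1 g2 hn1 hn2
        have h5 : ψ e = φ e := hψo e hes he2
        rw [← h5] at h4 ⊢
        exact sameCycle_apply_left.1 h4
  have same : ∀ e e', e ≠ d → e ≠ φ d → e' ≠ d → e' ≠ φ d → φ.SameCycle e e' →
      ψ.SameCycle e e' := by
    intro e e' a1 a2 a3 a4 hs
    obtain ⟨k, hk⟩ := SameCycle.exists_nat_pow_eq hs
    rw [← hk] at a3 a4 ⊢
    exact key k e a1 a2 a3 a4
  refine ⟨hψd, hψφ, same, ?_⟩
  intro e he1 he2
  -- the cycle of e under ψ
  have hinv : ∀ k : ℕ, (ψ ^ k) e ≠ d ∧ (ψ ^ k) e ≠ φ d ∧ φ.SameCycle e ((ψ ^ k) e) := by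
    intro k
    induction k with
    | zero => exact ⟨he1, he2, SameCycle.refl _ _⟩
    | succ k ih =>
      obtain ⟨i1, i2, i3⟩ := ih
      rw [pow_succ', Perm.mul_apply]
      set x := (ψ ^ k) e with hx
      refine ⟨?_, ?_, ?_⟩
      · intro h
        exact i2 (ψ.injective (h.trans hψφ.symm))
      · intro h
        exact i1 (ψ.injective (h.trans hψd.symm))
      · by_cases hxs : x = φ.symm d
        · rw [hxs, hψs]
          rw [hxs] at i3
          have : φ.SameCycle e d := by
            have h := sameCycle_apply_right.2 i3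
            rwa [φ.apply_symm_apply] at h
          exact sameCycle_apply_right.2 (sameCycle_apply_right.2 this)
        · rw [hψo x hxs i2]
          exact sameCycle_apply_right.2 i3
  have hset : ({x | ψ.SameCycle e x} : Set D) = {x | φ.SameCycle e x} \ {d, φ d} := by
    ext x
    constructor
    · intro hx
      obtain ⟨k, hk⟩ := SameCycle.exists_nat_pow_eq (show ψ.SameCycle e x from hx)
      obtain ⟨i1, i2, i3⟩ := hinv k
      rw [hk] at i1 i2 i3
      refine ⟨i3, ?_⟩
      rintro (h | h)
      · exact i1 h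
      · exact i2 h
    · rintro ⟨hx1, hx2⟩
      have a3 : x ≠ d := fun h => hx2 (Or.inl h)
      have a4 : x ≠ φ d := fun h => hx2 (Or.inr h)
      exact same e x he1 he2 a3 a4 hx1
  rw [mp_eq, mp_eq, hset]
  by_cases hc : φ.SameCycle e d
  · have hsub : ({d, φ d} : Set D) ⊆ {x | φ.SameCycle e x} := by
      rintro x (rfl | hx)
      · exact hc
      · have hx' : x = φ d := hx
        rw [hx']
        exact sameCycle_apply_right.2 hc
    have h4 := Set.ncard_sdiff_add_ncard_of_subset hsub (Set.toFinite _)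
    rw [Set.ncard_pair h1.symm] at h4
    rw [← h4]
    constructor
    · intro h
      exact h.add_even (by decide)
    · intro h
      rw [Nat.odd_add] at h
      exact h.2 (by decide)
  · have hdis : ({x | φ.SameCycle e x} : Set D) \ {d, φ d} = {x | φ.SameCycle e x} := by
      rw [sdiff_eq_left, Set.disjoint_left]
      intro x hx
      rintro (h | h)
      · rw [h] at hx
        exact hc hx
      · have hx' : x = φ d := h
        rw [hx'] at hx
        exact hc (sameCycle_apply_right.1 hx)
    rw [hdis]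

end Pool.Agent.Helper60.OF4.P2
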